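import Pool.Agent.Helper4.TH.StD

/-!
# Project TH (levels `2·5^n`), module Om: the values at the origin (models: `Helper53/W5/M_Om.lean`, `Helper97/TL/M_Om.lean`)
-/

set_option autoImplicit false

namespace Pool.Agent.Helper1.TH

open Pool.Agent.Helper14.CV (Homog EqC act Tl)
open Pool.Agent.Helper4.TH Pool.Agent.Helper93.TLH
open Pool.Agent.Helper14.W5 (tr5 Fn5 Tm opL op5 mulT mulL sclL Gd mmL idL Wd5 dX dY cS M7 nS S5Trm S5Low0)

section lists

variable {q q' : ℕ}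

private lemma opL_nil : (opL [] : Module.End (ZMod 5) (Fn5 q q')) = 0 := by simp [opL]

private lemma opL_cons (t : Tm) (L : List Tm) : (opL (t :: L) : Module.End (ZMod 5) (Fn5 q q')) =
    ((t.1 : ℤ) : ZMod 5) • op5 t.2.1 t.2.2.1 t.2.2.2.1 t.2.2.2.2 + opL L := by simp [opL]

private lemma opL_app (L L' : List Tm) :
    (opL (L ++ L') : Module.End (ZMod 5) (Fn5 q q')) = opL L + opL L' := by simp [opL]

private lemma opL_scl (n : ℤ) (L : List Tm) :
    (opL (sclL n L) : Module.End (ZMod 5) (Fn5 q q')) = ((n : ℤ) : ZMod 5) • opL L := by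
  induction L with
  | nil => simp [sclL, opL_nil]
  | cons t L ih =>
    have h : sclL n (t :: L) = (n * t.1, t.2) :: sclL n L := rfl
    rw [h, opL_cons, opL_cons, ih, smul_add, smul_smul]
    push_cast
    rfl

private lemma op_zero (a b c d : ℤ) (F : Fn5 q q') :
    (op5 a b c d F : Fn5 q q') 0 0 =
      F ((b : ZMod q) * (a : ZMod q)⁻¹) ((c : ZMod q') * (d : ZMod q')⁻¹) := by
  change F (((b : ZMod q) + d * 0) * ((a : ZMod q) + 5 * c * 0)⁻¹)
    (((c : ZMod q') + a * 0) * ((d : ZMod q') + 5 * b * 0)⁻¹) = _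
  simp only [mul_zero, add_zero]

private lemma dXpow (k : ℕ) (F : Fn5 q q') (y : ZMod q') :
    (fun x => ((dX ^ k : Module.End (ZMod 5) (Fn5 q q')) F) x y) =
      (fwdDiff (1 : ZMod q))^[k] (fun x => F x y) := by
  induction k with
  | zero => rfl
  | succ k ih =>
    rw [Function.iterate_succ_apply', ← ih, pow_succ']
    rfl

private lemma dYpow (k : ℕ) (F : Fn5 q q') (x : ZMod q) :
    (fun y => ((dY ^ k : Module.End (ZMod 5) (Fn5 q q')) F) x y) =
      (fwdDiff (1 : ZMod q'))^[k] (fun y => F x y) := by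
  induction k with
  | zero => rfl
  | succ k ih =>
    rw [Function.iterate_succ_apply', ← ih, pow_succ']
    rfl

private lemma newX (n : ℕ) (F : Fn5 q q') (x : ZMod q) (y : ZMod q') :
    F (x + n) y = ∑ i ∈ Finset.range (n + 1), (n.choose i : ZMod 5) *
      ((dX ^ i : Module.End (ZMod 5) (Fn5 q q')) F) x y := by
  have h := shift_eq_sum_fwdDiff_iter (1 : ZMod q) (fun x => F x y) n x
  rw [nsmul_one] at h
  rw [h]
  refine Finset.sum_congr rfl fun i _ => ?_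
  rw [← dXpow, nsmul_eq_mul]

private lemma newY (n : ℕ) (F : Fn5 q q') (x : ZMod q) (y : ZMod q') :
    F x (y + n) = ∑ i ∈ Finset.range (n + 1), (n.choose i : ZMod 5) *
      ((dY ^ i : Module.End (ZMod 5) (Fn5 q q')) F) x y := by
  have h := shift_eq_sum_fwdDiff_iter (1 : ZMod q') (fun y => F x y) n y
  rw [nsmul_one] at h
  rw [h]
  refine Finset.sum_congr rfl fun i _ => ?_
  rw [← dYpow, nsmul_eq_mul]

private lemma five : ∀ g : ℕ → ZMod 5, g 5 = 0 →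
    ∑ i ∈ Finset.range (5 + 1), (Nat.choose 5 i : ZMod 5) * g i = g 0 := by
  intro g hg
  have h5 : (5 : ZMod 5) = 0 := by decide
  have h10 : (10 : ZMod 5) = 0 := by decide
  simp [Finset.sum_range_succ, Nat.choose, hg, h5, h10]

private lemma perX (F : Fn5 q q') (h : (dX ^ 5 : Module.End (ZMod 5) (Fn5 q q')) F = 0) (y : ZMod q') :
    ∀ (n : ℕ) (x : ZMod q), F (x + 5 * (n : ZMod q)) y = F x y := by
  intro n
  induction n with
  | zero => intro x; simp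
  | succ n ih =>
    intro x
    have e : x + 5 * ((n + 1 : ℕ) : ZMod q) = (x + 5 * (n : ZMod q)) + (5 : ℕ) := by
      push_cast; ring
    rw [e, newX 5 F, five _ (by rw [h]; rfl), pow_zero]
    exact ih x

private lemma perY (F : Fn5 q q') (h : (dY ^ 5 : Module.End (ZMod 5) (Fn5 q q')) F = 0) (x : ZMod q) :
    ∀ (n : ℕ) (y : ZMod q'), F x (y + 5 * (n : ZMod q')) = F x y := by
  intro n
  induction n with
  | zero => intro y; simp
  | succ n ih =>
    intro y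
    have e : y + 5 * ((n + 1 : ℕ) : ZMod q') = (y + 5 * (n : ZMod q')) + (5 : ℕ) := by
      push_cast; ring
    rw [e, newY 5 F, five _ (by rw [h]; rfl), pow_zero]
    exact ih y

private lemma perX' [NeZero q] (F : Fn5 q q') (h : (dX ^ 5 : Module.End (ZMod 5) (Fn5 q q')) F = 0)
    (x u : ZMod q) (y : ZMod q') : F (x + 5 * u) y = F x y := by
  have := perX F h y u.val x
  rwa [ZMod.natCast_zmod_val] at this

private lemma perY' [NeZero q'] (F : Fn5 q q') (h : (dY ^ 5 : Module.End (ZMod 5) (Fn5 q q')) F = 0)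
    (x : ZMod q) (y u : ZMod q') : F x (y + 5 * u) = F x y := by
  have := perY F h x u.val y
  rwa [ZMod.natCast_zmod_val] at this

end lists

/-- entries prime to five -/
private def good (L : List Tm) : Prop := ∀ t ∈ L, Gd t

private lemma unitInt (r : ℕ) (a : ℤ) (ha : a % 5 ≠ 0) : IsUnit (a : ZMod (5 ^ r)) := by
  have ha' : ¬ (5 : ℤ) ∣ a := by omega
  have h1 : IsCoprime a (5 : ℤ) := by
    have hp : Prime (5 : ℤ) := by
      have := Nat.prime_iff_prime_int.1 Nat.prime_five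
      exact_mod_cast this
    exact ((Prime.coprime_iff_not_dvd hp).2 ha').symm
  have h2 : IsCoprime a ((5 : ℤ) ^ r) := h1.pow_right
  obtain ⟨u, v, huv⟩ := h2
  have h3 : (u : ZMod (5 ^ r)) * (a : ZMod (5 ^ r)) = 1 := by
    have h4 : ((u * a + v * (5 : ℤ) ^ r : ℤ) : ZMod (5 ^ r)) = ((1 : ℤ) : ZMod (5 ^ r)) := by
      rw [huv]
    have h5 : (((5 : ℤ) ^ r : ℤ) : ZMod (5 ^ r)) = 0 := by
      have h := ZMod.natCast_self (5 ^ r)
      push_cast at h ⊢
      exact h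
    push_cast at h4 h5
    rw [h5, mul_zero, add_zero] at h4
    exact h4
  exact IsUnit.of_mul_eq_one (u : ZMod (5 ^ r)) (by rw [mul_comm]; exact h3)

private lemma fourth (a : ℤ) (ha : a % 5 ≠ 0) : ∃ k : ℤ, a ^ 4 = 1 + 5 * k := by
  have h : a ^ 4 % 5 = 1 := by
    have h1 : a % 5 = 1 ∨ a % 5 = 2 ∨ a % 5 = 3 ∨ a % 5 = 4 := by omega
    rcases h1 with h1 | h1 | h1 | h1 <;> norm_num [pow_succ, Int.mul_emod, h1]
  exact ⟨a ^ 4 / 5, by omega⟩

private lemma resid (r : ℕ) (a b : ℤ) (ha : a % 5 ≠ 0) : ∃ u : ZMod (5 ^ r),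
    (b : ZMod (5 ^ r)) * (a : ZMod (5 ^ r))⁻¹ = 0 + ((((b * a ^ 3) % 5).toNat : ℕ) : ZMod (5 ^ r)) + 5 * u := by
  have h1 : (a : ZMod (5 ^ r)) * (a : ZMod (5 ^ r))⁻¹ = 1 := ZMod.mul_inv_of_unit _ (unitInt r a ha)
  obtain ⟨k, hk⟩ := fourth a ha
  have hk' : (a : ZMod (5 ^ r)) ^ 4 = 1 + 5 * (k : ZMod (5 ^ r)) := by
    have := congrArg (fun z : ℤ => (z : ZMod (5 ^ r))) hk
    push_cast at this
    exact this
  have h2 : ((((b * a ^ 3) % 5).toNat : ℕ) : ZMod (5 ^ r)) =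
      (b : ZMod (5 ^ r)) * (a : ZMod (5 ^ r)) ^ 3 - 5 * ((b * a ^ 3 / 5 : ℤ) : ZMod (5 ^ r)) := by
    have e1 : ((((b * a ^ 3) % 5).toNat : ℕ) : ℤ) = b * a ^ 3 - 5 * (b * a ^ 3 / 5) := by omega
    have e2 : (((((b * a ^ 3) % 5).toNat : ℕ) : ℤ) : ZMod (5 ^ r)) =
        ((b * a ^ 3 - 5 * (b * a ^ 3 / 5) : ℤ) : ZMod (5 ^ r)) := by rw [e1]
    rw [Int.cast_natCast] at e2
    rw [e2]
    push_cast
    ring
  refine ⟨((b * a ^ 3 / 5 : ℤ) : ZMod (5 ^ r)) - k * ((b : ZMod (5 ^ r)) * (a : ZMod (5 ^ r))⁻¹), ?_⟩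
  rw [h2]
  linear_combination (b : ZMod (5 ^ r)) * (a : ZMod (5 ^ r)) ^ 3 * h1 -
    (b : ZMod (5 ^ r)) * (a : ZMod (5 ^ r))⁻¹ * hk'

section ops

variable {r s : ℕ}

private lemma op5_mul (hm : S5Trm) (a b c d a' b' c' d' : ℤ) (ha : a % 5 ≠ 0) (hd : d % 5 ≠ 0)
    (ha' : a' % 5 ≠ 0) (hd' : d' % 5 ≠ 0) :
    (op5 a b c d * op5 a' b' c' d' : Module.End (ZMod 5) (Fn5 (5 ^ r) (5 ^ s))) =
      op5 (a * a' + 5 * b * c') (a * b' + b * d') (c * a' + d * c') (5 * c * b' + d * d') := by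
  refine LinearMap.ext fun F => ?_
  exact (hm (ZMod 5) r s F).1 a b c d a' b' c' d' (by omega) (by omega) (by omega) (by omega)

private lemma opL_map (hm : S5Trm) (t : Tm) (ht : Gd t) (L : List Tm)
    (hL : good L) : (opL (L.map fun t' => mulT t t') : Module.End (ZMod 5) (Fn5 (5 ^ r) (5 ^ s))) =
      (((t.1 : ℤ) : ZMod 5) • op5 t.2.1 t.2.2.1 t.2.2.2.1 t.2.2.2.2) * opL L := by
  induction L with
  | nil => simp [opL_nil]
  | cons t' L ih =>
    have h1 := hL t' List.mem_cons_self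
    rw [List.map_cons, opL_cons, opL_cons, ih fun x hx => hL x (List.mem_cons_of_mem _ hx), mul_add]
    congr 1
    rw [smul_mul_smul_comm, op5_mul hm _ _ _ _ _ _ _ _ ht.1 ht.2 h1.1 h1.2]
    unfold mulT
    push_cast
    rfl

private lemma opL_mul (hm : S5Trm) (L L' : List Tm) (hL : good L) (hL' : good L') :
    (opL (mulL L L') : Module.End (ZMod 5) (Fn5 (5 ^ r) (5 ^ s))) = opL L * opL L' := by
  induction L with
  | nil => simp [mulL, opL_nil]
  | cons t L ih =>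
    have h : mulL (t :: L) L' = (L'.map fun t' => mulT t t') ++ mulL L L' := by
      unfold mulL
      rw [List.flatMap_cons]
    rw [h, opL_app, opL_map hm t (hL t List.mem_cons_self) L' hL', opL_cons, add_mul,
      ih fun x hx => hL x (List.mem_cons_of_mem _ hx)]

/-- the value at the origin -/
private lemma val_zero (hcm : (dX * dY : Module.End (ZMod 5) (Fn5 (5 ^ r) (5 ^ s))) = dY * dX)
    (G : Fn5 (5 ^ r) (5 ^ s)) (hG : G ∈ Wd5 4) (a b c d : ℤ) (ha : a % 5 ≠ 0) (hd : d % 5 ≠ 0) :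
    (op5 a b c d G : Fn5 (5 ^ r) (5 ^ s)) 0 0 = ∑ i ∈ Finset.range 5, ∑ j ∈ Finset.range 5,
      ((((((b * a ^ 3) % 5).toNat).choose i * (((c * d ^ 3) % 5).toNat).choose j : ℕ) : ℤ) : ZMod 5) *
        ((dX ^ i * dY ^ j : Module.End (ZMod 5) (Fn5 (5 ^ r) (5 ^ s))) G) 0 0 := by
  have hx : (dX ^ 5 : Module.End (ZMod 5) (Fn5 (5 ^ r) (5 ^ s))) G = 0 := by
    have := hG 5 0 (by norm_num)
    rwa [pow_zero, mul_one] at this
  have hy : (dY ^ 5 : Module.End (ZMod 5) (Fn5 (5 ^ r) (5 ^ s))) G = 0 := by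
    have := hG 0 5 (by norm_num)
    rwa [pow_zero, one_mul] at this
  obtain ⟨u, hu⟩ := resid r a b ha
  obtain ⟨v, hv⟩ := resid s d c hd
  have hx4 : ((b * a ^ 3) % 5).toNat ≤ 4 := by omega
  have hy4 : ((c * d ^ 3) % 5).toNat ≤ 4 := by omega
  rw [op_zero, hu, hv, perX' G hx, perY' G hy]
  generalize ((b * a ^ 3) % 5).toNat = X at hx4
  generalize ((c * d ^ 3) % 5).toNat = Y at hy4
  have ext5 : ∀ (N : ℕ) (g : ℕ → ZMod 5), N ≤ 4 →
      ∑ i ∈ Finset.range (N + 1), (N.choose i : ZMod 5) * g i =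
        ∑ i ∈ Finset.range 5, (N.choose i : ZMod 5) * g i := by
    intro N g hN
    refine Finset.sum_subset (fun i hi => ?_) (fun i _ hi => ?_)
    · rw [Finset.mem_range] at hi ⊢; omega
    · rw [Finset.mem_range, not_lt] at hi
      rw [Nat.choose_eq_zero_of_lt (by omega), Nat.cast_zero, zero_mul]
  rw [newX X G 0 _, ext5 X _ hx4]
  refine Finset.sum_congr rfl fun i _ => ?_
  rw [newY Y ((dX ^ i : Module.End (ZMod 5) (Fn5 (5 ^ r) (5 ^ s))) G) 0 0, ext5 Y _ hy4, Finset.mul_sum]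
  refine Finset.sum_congr rfl fun j _ => ?_
  have hc : (dY ^ j * dX ^ i : Module.End (ZMod 5) (Fn5 (5 ^ r) (5 ^ s))) = dX ^ i * dY ^ j := by
    have h1 : Commute (dX : Module.End (ZMod 5) (Fn5 (5 ^ r) (5 ^ s))) dY := hcm
    exact (h1.pow_pow i j).eq.symm
  have e : ((dY ^ j : Module.End (ZMod 5) (Fn5 (5 ^ r) (5 ^ s)))
      ((dX ^ i : Module.End (ZMod 5) (Fn5 (5 ^ r) (5 ^ s))) G)) =
      (dX ^ i * dY ^ j : Module.End (ZMod 5) (Fn5 (5 ^ r) (5 ^ s))) G := by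
    rw [← hc]; rfl
  rw [e]
  push_cast
  ring

private lemma val_list (hcm : (dX * dY : Module.End (ZMod 5) (Fn5 (5 ^ r) (5 ^ s))) = dY * dX)
    (G : Fn5 (5 ^ r) (5 ^ s)) (hG : G ∈ Wd5 4) (L : List Tm) (hL : good L) :
    (opL L G : Fn5 (5 ^ r) (5 ^ s)) 0 0 = ∑ i ∈ Finset.range 5, ∑ j ∈ Finset.range 5,
      ((nS L i j : ℤ) : ZMod 5) *
        ((dX ^ i * dY ^ j : Module.End (ZMod 5) (Fn5 (5 ^ r) (5 ^ s))) G) 0 0 := by
  induction L with
  | nil => simp [opL_nil, nS]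
  | cons t L ih =>
    have h1 := hL t List.mem_cons_self
    have h2 := ih fun x hx => hL x (List.mem_cons_of_mem _ hx)
    have h3 := val_zero hcm G hG t.2.1 t.2.2.1 t.2.2.2.1 t.2.2.2.2 h1.1 h1.2
    rw [opL_cons]
    change ((t.1 : ℤ) : ZMod 5) * (op5 t.2.1 t.2.2.1 t.2.2.2.1 t.2.2.2.2 G : Fn5 (5 ^ r) (5 ^ s)) 0 0 +
      (opL L G : Fn5 (5 ^ r) (5 ^ s)) 0 0 = _
    rw [h2, h3, Finset.mul_sum, ← Finset.sum_add_distrib]
    refine Finset.sum_congr rfl fun i _ => ?_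
    rw [Finset.mul_sum, ← Finset.sum_add_distrib]
    refine Finset.sum_congr rfl fun j _ => ?_
    have e : nS (t :: L) i j = (t.1 : ℤ) * (((((t.2.2.1 * t.2.1 ^ 3) % 5).toNat).choose i *
      (((t.2.2.2.1 * t.2.2.2.2 ^ 3) % 5).toNat).choose j : ℕ) : ℤ) + nS L i j := by
      simp [nS]
    rw [e]
    push_cast
    ring

private lemma cast5 {S C : ℤ} (h : (5 : ℤ) ∣ S - C) : (S : ZMod 5) = (C : ZMod 5) := by
  have h1 := (ZMod.intCast_zmod_eq_zero_iff_dvd (S - C) 5).2 (by exact_mod_cast h)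
  push_cast at h1
  exact sub_eq_zero.1 h1

end ops

private lemma goodA0 : good (BAH 0) := by
  unfold good
  decide +kernel

private lemma goodA1 : good (BAH 1) := by
  unfold good
  decide +kernel

private lemma goodB0 : good (BBH 0) := by
  unfold good
  decide +kernel

private lemma goodB1 : good (BBH 1) := by
  unfold good
  decide +kernel

/-- multiples of the relations -/
private lemma mul_rel (hm : S5Trm) (hr : TRll) (hg : TCeG) {r s : ℕ} (F : Fin 2 → Fn5 (5 ^ r) (5 ^ s))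
    (hR : RelH F) (U : List Tm) (ρ : Fin 2) (hU : good U) :
    ∑ f : Fin 2, opL (sclL (-1) (mulL U (relH ρ f))) (F f) = 0 := by
  have h2 : ∀ f : Fin 2, opL (sclL (-1) (mulL U (relH ρ f))) (F f) =
      (((-1 : ℤ)) : ZMod 5) • (opL U) (opL (relH ρ f) (F f)) := by
    intro f
    rw [opL_scl, opL_mul hm U (relH ρ f) hU (fun t ht => (hg ρ f).2.2.2.2.1 t ht)]
    rfl
  rw [Finset.sum_congr rfl fun f _ => h2 f, ← Finset.smul_sum, ← map_sum, hr r s F hR ρ, map_zero,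
    smul_zero]

/-- OMA. -/
theorem hOmA (ht : S5Trm) (hl : S5Low0) (hr : TRll) (hg : TCeG) (hc : TCeA) : TOmA := by
  intro r s F hR h0 h1
  obtain ⟨_, _, _, _, hmono, _, _, _, hcm, _⟩ := hl r s
  have hmul := mul_rel ht hr hg F hR
  have hBO : ∑ f : Fin 2, opL (OAH f) (F f) = ∑ f : Fin 2, opL (BAH f) (F f) := by
    have h2 : ∀ f : Fin 2, opL (BAH f) (F f) = opL (OAH f) (F f) +
        opL (sclL (-1) (mulL [(2, 1, 1, 0, 1)] (relH 0 f))) (F f) +
        opL (sclL (-1) (mulL [(-2, 2, -1, 0, 1)] (relH 1 f))) (F f) := by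
      intro f
      unfold BAH
      rw [opL_app, opL_app, LinearMap.add_apply, LinearMap.add_apply]
    rw [Finset.sum_congr rfl fun f _ => h2 f, Finset.sum_add_distrib, Finset.sum_add_distrib,
      hmul [(2, 1, 1, 0, 1)] 0 (by unfold good; decide), hmul [(-2, 2, -1, 0, 1)] 1 (by unfold good; decide),
      add_zero, add_zero]
  have h04 : F 0 ∈ (Wd5 4 : Submodule (ZMod 5) (Fn5 (5 ^ r) (5 ^ s))) := hmono 2 4 (by norm_num) h0
  have h14 : F 1 ∈ (Wd5 4 : Submodule (ZMod 5) (Fn5 (5 ^ r) (5 ^ s))) := hmono 2 4 (by norm_num) h1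
  rw [hBO, Fin.sum_univ_two, Pi.add_apply, Pi.add_apply, val_list hcm (F 0) h04 _ goodA0,
    val_list hcm (F 1) h14 _ goodA1]
  have z1 : ∀ i ∈ Finset.range 5, ∀ j ∈ Finset.range 5, ((nS (BAH 1) i j : ℤ) : ZMod 5) *
      ((dX ^ i * dY ^ j : Module.End (ZMod 5) (Fn5 (5 ^ r) (5 ^ s))) (F 1)) 0 0 =
      (((if (i = 2 ∧ j = 0) ∨ (i = 0 ∧ j = 2) then 4 else 0 : ℤ)) : ZMod 5) *
      ((dX ^ i * dY ^ j : Module.End (ZMod 5) (Fn5 (5 ^ r) (5 ^ s))) (F 1)) 0 0 := by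
    intro i hi j hj
    by_cases hij : i + j ≤ 2
    · have h3 := hc 1 i (by omega) j (by omega) hij
      rw [if_neg (by decide)] at h3
      rw [cast5 h3]
    · rw [h1 i j (by omega)]
      simp
  have z0 : ∀ i ∈ Finset.range 5, ∀ j ∈ Finset.range 5, ((nS (BAH 0) i j : ℤ) : ZMod 5) *
      ((dX ^ i * dY ^ j : Module.End (ZMod 5) (Fn5 (5 ^ r) (5 ^ s))) (F 0)) 0 0 =
      (((if i = 2 ∧ j = 0 then 2 else 0 : ℤ)) : ZMod 5) *
      ((dX ^ i * dY ^ j : Module.End (ZMod 5) (Fn5 (5 ^ r) (5 ^ s))) (F 0)) 0 0 := by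
    intro i hi j hj
    by_cases hij : i + j ≤ 2
    · have h3 := hc 0 i (by omega) j (by omega) hij
      rw [if_pos rfl] at h3
      rw [cast5 h3]
    · rw [h0 i j (by omega)]
      simp
  rw [Finset.sum_congr rfl fun i hi => Finset.sum_congr rfl fun j hj => z0 i hi j hj,
    Finset.sum_congr rfl fun i hi => Finset.sum_congr rfl fun j hj => z1 i hi j hj]
  simp only [Finset.sum_range_succ, Finset.sum_range_zero]
  norm_num
  have e : MaH (F 0) 0 0 = 2 * ((dX ^ 2 * dY ^ 0 : Module.End (ZMod 5) (Fn5 (5 ^ r) (5 ^ s))) (F 0)) 0 0 := by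
    unfold MaH
    rw [pow_zero, mul_one]
    rfl
  have e' : MbH (F 1) 0 0 = 4 * (((dX ^ 2 * dY ^ 0 : Module.End (ZMod 5) (Fn5 (5 ^ r) (5 ^ s))) (F 1)) 0 0 +
      ((dX ^ 0 * dY ^ 2 : Module.End (ZMod 5) (Fn5 (5 ^ r) (5 ^ s))) (F 1)) 0 0) := by
    unfold MbH
    rw [pow_zero, pow_zero, mul_one, one_mul]
    rfl
  rw [e, e']
  simp only [pow_zero, mul_one, one_mul]
  ring

/-- OMB. -/
theorem hOmB (ht : S5Trm) (hl : S5Low0) (hr : TRll) (hg : TCeG) (hc : TCeB) : TOmB := by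
  intro r s F hR h0 h1
  obtain ⟨_, _, _, _, hmono, _, _, _, hcm, _⟩ := hl r s
  have hmul := mul_rel ht hr hg F hR
  have hBO : ∑ f : Fin 2, opL (OBH f) (F f) = ∑ f : Fin 2, opL (BBH f) (F f) := by
    have h2 : ∀ f : Fin 2, opL (BBH f) (F f) = opL (OBH f) (F f) +
        opL (sclL (-1) (mulL [(-1, 1, -1, 1, 2), (-1, 1, 0, 0, 2), (1, 1, 0, 1, -1)] (relH 0 f))) (F f) +
        opL (sclL (-1) (mulL [(1, 2, 1, 1, -1)] (relH 1 f))) (F f) := by
      intro f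
      unfold BBH
      rw [opL_app, opL_app, LinearMap.add_apply, LinearMap.add_apply]
    rw [Finset.sum_congr rfl fun f _ => h2 f, Finset.sum_add_distrib, Finset.sum_add_distrib,
      hmul [(-1, 1, -1, 1, 2), (-1, 1, 0, 0, 2), (1, 1, 0, 1, -1)] 0 (by unfold good; decide),
      hmul [(1, 2, 1, 1, -1)] 1 (by unfold good; decide), add_zero, add_zero]
  rw [hBO, Fin.sum_univ_two, Pi.add_apply, Pi.add_apply, val_list hcm (F 0) h0 _ goodB0,
    val_list hcm (F 1) h1 _ goodB1]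
  have z1 : ∑ i ∈ Finset.range 5, ∑ j ∈ Finset.range 5, ((nS (BBH 1) i j : ℤ) : ZMod 5) *
      ((dX ^ i * dY ^ j : Module.End (ZMod 5) (Fn5 (5 ^ r) (5 ^ s))) (F 1)) 0 0 = 0 := by
    refine Finset.sum_eq_zero fun i hi => Finset.sum_eq_zero fun j hj => ?_
    rw [Finset.mem_range] at hi hj
    by_cases hij : i + j ≤ 4
    · have h3 := hc 1 i hi j hj hij
      rw [if_neg (by decide)] at h3
      rw [cast5 h3]
      simp
    · rw [h1 i j (by omega)]
      simp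
  have z0 : ∀ i ∈ Finset.range 5, ∀ j ∈ Finset.range 5, ((nS (BBH 0) i j : ℤ) : ZMod 5) *
      ((dX ^ i * dY ^ j : Module.End (ZMod 5) (Fn5 (5 ^ r) (5 ^ s))) (F 0)) 0 0 =
      (((if i = 3 ∧ j = 1 then 2 else if i = 1 ∧ j = 3 then 3 else if i = 2 ∧ j = 2 then 2 else 0 : ℤ)) :
        ZMod 5) *
      ((dX ^ i * dY ^ j : Module.End (ZMod 5) (Fn5 (5 ^ r) (5 ^ s))) (F 0)) 0 0 := by
    intro i hi j hj
    rw [Finset.mem_range] at hi hj
    by_cases hij : i + j ≤ 4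
    · have h3 := hc 0 i hi j hj hij
      rw [if_pos rfl] at h3
      rw [cast5 h3]
    · rw [h0 i j (by omega)]
      simp
  rw [z1, add_zero, Finset.sum_congr rfl fun i hi => Finset.sum_congr rfl fun j hj => z0 i hi j hj]
  simp only [Finset.sum_range_succ, Finset.sum_range_zero]
  norm_num
  have e : McH (F 0) 0 0 = 2 * ((dX ^ 3 * dY ^ 1 : Module.End (ZMod 5) (Fn5 (5 ^ r) (5 ^ s))) (F 0)) 0 0 +
      3 * ((dX ^ 1 * dY ^ 3 : Module.End (ZMod 5) (Fn5 (5 ^ r) (5 ^ s))) (F 0)) 0 0 +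
      2 * ((dX ^ 2 * dY ^ 2 : Module.End (ZMod 5) (Fn5 (5 ^ r) (5 ^ s))) (F 0)) 0 0 := by
    unfold McH
    rw [pow_one, pow_one]
    rfl
  rw [e]
  simp only [pow_one, Module.End.mul_apply]
  ring

end Pool.Agent.Helper1.TH
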